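import Mathlib

/-!
# Graphs with boundary, networks and fundamental modules (MP_2ddb17_co): definitions
-/

set_option autoImplicit false

namespace Pool.Agent.Q180.FN

universe u

/-- A `∂`-graph: a countable, locally finite, undirected multigraph, together with a partition of
the vertices into interior and boundary vertices. `V` is the set of vertices, `E` the set of
oriented edges, `src e` and `tgt e` are the start vertex and the end vertex of `e`, `rev e` is the
reversed edge, `interior` is the set of the interior vertices (the other ones are the boundary
vertices). -/
structure BGraph where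
  /-- the vertices -/
  V : Type
  /-- the oriented edges -/
  E : Type
  /-- start vertex -/
  src : E → V
  /-- end vertex -/
  tgt : E → V
  /-- the reversed edge -/
  rev : E → E
  rev_rev : ∀ e, rev (rev e) = e
  rev_ne : ∀ e, rev e ≠ e
  src_rev : ∀ e, src (rev e) = tgt e
  /-- the interior vertices -/
  interior : Set V
  countable : Countable V
  locFin : ∀ x, {e | src e = x}.Finite

namespace BGraph

variable (G : BGraph) {R : Type u} [CommRing R]

/-- The oriented edges which start in `x`. -/
noncomputable def out (x : G.V) : Finset G.E := (G.locFin x).toFinset

/-- The generalized Laplacian `L x = d(x) x + ∑ w(e) (x - e₋)`, the sum over the edges `e` with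
start vertex `x`, as a linear map of the free module `R V = (V →₀ R)`. -/
noncomputable def lap (w : G.E → R) (d : G.V → R) : (G.V →₀ R) →ₗ[R] (G.V →₀ R) :=
  Finsupp.linearCombination R fun x =>
    d x • Finsupp.single x 1 +
      ∑ e ∈ G.out x, w e • (Finsupp.single x 1 - Finsupp.single (G.tgt e) 1)

/-- The weights are units, and opposite edges have the same weight: together with an arbitrary
function `d` they give an `R^×`-network. -/
def IsNetwork (w : G.E → R) : Prop := (∀ e, w (G.rev e) = w e) ∧ ∀ e, IsUnit (w e)

/-- The fundamental module `R V / L (R V°)`. -/
abbrev Fund (w : G.E → R) (d : G.V → R) : Type u :=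
  (G.V →₀ R) ⧸ (Finsupp.supported R R G.interior).map (G.lap w d)

end BGraph

end Pool.Agent.Q180.FN
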