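import Mathlib

/-!
# Quotients of free modules by triangular families are flat
-/

set_option autoImplicit false

namespace Pool.Agent.Q180.FN

open Finsupp Submodule

universe u v

variable {R : Type u} [CommRing R] {V : Type v}

lemma tri_zero (ℓ : ℕ → V →₀ R) (v : ℕ → V) (h1 : ∀ i, IsUnit (ℓ i (v i)))
    (h2 : ∀ i j, i < j → ℓ j (v i) = 0) (n : ℕ) :
    ∀ h ∈ span R (ℓ '' Set.Iio n), (∀ i < n, h (v i) = 0) → h = 0 := by
  induction n with
  | zero =>
    intro h hh _
    simpa using hh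
  | succ n ih =>
    intro h hh hz
    rw [show Set.Iio (n + 1) = insert n (Set.Iio n) by ext k; simp,
      Set.image_insert_eq, mem_span_insert] at hh
    obtain ⟨a, s, hs, rfl⟩ := hh
    have hs0 : s = 0 := by
      apply ih s hs
      intro i hi
      have := hz i (by omega)
      rw [Finsupp.add_apply, Finsupp.smul_apply, h2 i n hi, smul_zero, zero_add] at this
      exact this
    subst hs0
    have := hz n (by omega)
    rw [Finsupp.add_apply, Finsupp.smul_apply, smul_eq_mul, Finsupp.coe_zero, Pi.zero_apply,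
      add_zero] at this
    have ha : a = 0 := by
      have := (h1 n).mul_left_eq_zero.1 this
      exact this
    rw [ha, zero_smul, add_zero]

lemma tri_sol (ℓ : ℕ → V →₀ R) (v : ℕ → V) (h1 : ∀ i, IsUnit (ℓ i (v i)))
    (h2 : ∀ i j, i < j → ℓ j (v i) = 0) (h : V →₀ R) (n : ℕ) :
    ∃ s ∈ span R (ℓ '' Set.Iio n), ∀ i < n, (h - s) (v i) = 0 := by
  induction n with
  | zero => exact ⟨0, Submodule.zero_mem _, fun i hi => absurd hi (by omega)⟩
  | succ n ih =>
    obtain ⟨s, hs, hz⟩ := ih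
    obtain ⟨b, hb⟩ := (h1 n).exists_left_inv
    refine ⟨s + ((h - s) (v n) * b) • ℓ n, ?_, ?_⟩
    · apply Submodule.add_mem
      · exact span_mono (Set.image_mono (Set.Iio_subset_Iio (by omega))) hs
      · apply Submodule.smul_mem
        exact subset_span ⟨n, by simp, rfl⟩
    · intro i hi
      rcases Nat.lt_succ_iff_lt_or_eq.1 hi with hi | rfl
      · have := hz i hi
        rw [Finsupp.sub_apply] at this ⊢
        rw [Finsupp.add_apply, Finsupp.smul_apply, h2 i n hi, smul_zero, add_zero]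
        exact this
      · rw [← sub_sub, Finsupp.sub_apply (h - s), Finsupp.smul_apply, smul_eq_mul, mul_assoc, hb,
          mul_one, sub_self]

lemma tri_isCompl (ℓ : ℕ → V →₀ R) (v : ℕ → V) (h1 : ∀ i, IsUnit (ℓ i (v i)))
    (h2 : ∀ i j, i < j → ℓ j (v i) = 0) (n : ℕ) :
    IsCompl (span R (ℓ '' Set.Iio n)) (supported R R {x : V | ∀ i < n, v i ≠ x}) := by
  constructor
  · rw [Submodule.disjoint_def]
    intro h hh hs
    apply tri_zero ℓ v h1 h2 n h hh
    intro i hi
    rw [mem_supported] at hs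
    by_contra hne
    exact hs (Finsupp.mem_support_iff.2 hne) i hi rfl
  · rw [codisjoint_iff_exists_add_eq]
    intro h
    obtain ⟨s, hs, hz⟩ := tri_sol ℓ v h1 h2 h n
    refine ⟨s, h - s, hs, ?_, by abel⟩
    rw [mem_supported]
    intro x hx i hi hix
    subst hix
    exact (Finsupp.mem_support_iff.1 hx) (hz i hi)

lemma tri_flat_fin (ℓ : ℕ → V →₀ R) (v : ℕ → V) (h1 : ∀ i, IsUnit (ℓ i (v i)))
    (h2 : ∀ i j, i < j → ℓ j (v i) = 0) (n : ℕ) :
    Module.Flat R ((V →₀ R) ⧸ span R (ℓ '' Set.Iio n)) :=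
  Module.Flat.of_linearEquiv ((quotientEquivOfIsCompl _ _ (tri_isCompl ℓ v h1 h2 n)).trans
    (supportedEquivFinsupp _))

/-- Let `ℓ 0, ℓ 1, ...` be elements of a free module such that `ℓ i` has a unit as its coordinate
at `v i`, while the coordinates of `ℓ j`, `j > i`, at `v i` are zero. Then the quotient by the
submodule generated by the `ℓ i` is flat. -/
theorem tri_flat (ℓ : ℕ → V →₀ R) (v : ℕ → V) (h1 : ∀ i, IsUnit (ℓ i (v i)))
    (h2 : ∀ i j, i < j → ℓ j (v i) = 0) :
    Module.Flat R ((V →₀ R) ⧸ span R (Set.range ℓ)) := by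
  apply Module.Flat.of_forall_isTrivialRelation
  intro l f x h
  choose y hy using fun i => Submodule.Quotient.mk_surjective (span R (Set.range ℓ)) (x i)
  have hmem : ∑ i, f i • y i ∈ span R (Set.range ℓ) := by
    rw [← Submodule.Quotient.mk_eq_zero, ← Submodule.mkQ_apply, map_sum, ← h]
    apply Finset.sum_congr rfl
    intro i _
    rw [map_smul, Submodule.mkQ_apply, hy i]
  have hU : Set.range ℓ = ⋃ n, ℓ '' Set.Iio n := by
    ext z
    simp only [Set.mem_range, Set.mem_iUnion, Set.mem_image, Set.mem_Iio]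
    constructor
    · rintro ⟨i, rfl⟩
      exact ⟨i + 1, i, by omega, rfl⟩
    · rintro ⟨_, i, _, rfl⟩
      exact ⟨i, rfl⟩
  have hmono : Monotone fun n => span R (ℓ '' Set.Iio n) := fun a b hab =>
    span_mono (Set.image_mono (Set.Iio_subset_Iio hab))
  have hmem2 := hmem
  rw [hU, span_iUnion, mem_iSup_of_directed _ hmono.directed_le] at hmem2
  obtain ⟨n, hn⟩ := hmem2
  have hle : span R (ℓ '' Set.Iio n) ≤ span R (Set.range ℓ) :=
    span_mono (by rintro _ ⟨i, _, rfl⟩; exact ⟨i, rfl⟩)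
  have hflat := tri_flat_fin ℓ v h1 h2 n
  have hrel : ∑ i, f i • (Submodule.Quotient.mk (y i) : (V →₀ R) ⧸ span R (ℓ '' Set.Iio n)) = 0 := by
    rw [← (Submodule.Quotient.mk_eq_zero _).2 hn, ← Submodule.mkQ_apply, map_sum]
    apply Finset.sum_congr rfl
    intro i _
    rw [map_smul, Submodule.mkQ_apply]
  obtain ⟨k, a, z, hz1, hz2⟩ := Module.Flat.isTrivialRelation_of_sum_smul_eq_zero hrel
  refine ⟨k, a, fun j => Submodule.factor hle (z j), ?_, hz2⟩
  intro i
  rw [← hy i]
  have := congrArg (Submodule.factor hle) (hz1 i)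
  rw [map_sum] at this
  rw [show (Submodule.Quotient.mk (y i) : (V →₀ R) ⧸ span R (Set.range ℓ)) =
    Submodule.factor hle (Submodule.Quotient.mk (y i)) from rfl, this]
  apply Finset.sum_congr rfl
  intro j _
  rw [map_smul]

end Pool.Agent.Q180.FN
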