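import Pool.Agent.Q180.FN.Defs
import Pool.Agent.Q180.FN.Tri

/-!
# A criterion for the flatness of all fundamental modules of a graph
-/

set_option autoImplicit false

namespace Pool.Agent.Q180.FN

open Finsupp Submodule

universe u

variable (G : BGraph) {R : Type u} [CommRing R] (w : G.E → R) (d : G.V → R)

lemma mem_out (x : G.V) (e : G.E) : e ∈ G.out x ↔ G.src e = x := by
  unfold BGraph.out
  rw [Set.Finite.mem_toFinset]
  rfl

lemma lap_single (x : G.V) : G.lap w d (single x 1) = d x • single x 1 +
    ∑ e ∈ G.out x, w e • (single x 1 - single (G.tgt e) 1) := by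
  unfold BGraph.lap
  rw [linearCombination_single, one_smul]

lemma lap_single' (x : G.V) (S : Finset G.E) (hS : ∀ e, e ∈ S ↔ G.src e = x) :
    G.lap w d (single x 1) = d x • single x 1 +
      ∑ e ∈ S, w e • (single x 1 - single (G.tgt e) 1) := by
  rw [lap_single]
  congr 2
  ext e
  rw [mem_out, hS]

open Classical in
lemma lap_apply_ne (x y : G.V) (hxy : x ≠ y) : G.lap w d (single x 1) y =
    - ∑ e ∈ G.out x, if G.tgt e = y then w e else 0 := by
  rw [lap_single, Finsupp.add_apply, Finsupp.smul_apply, Finsupp.single_eq_of_ne' hxy, smul_zero,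
    zero_add, Finsupp.finsetSum_apply, ← Finset.sum_neg_distrib]
  apply Finset.sum_congr rfl
  intro e _
  rw [Finsupp.smul_apply, Finsupp.sub_apply, Finsupp.single_eq_of_ne' hxy, zero_sub, smul_neg]
  congr 1
  rw [Finsupp.single_apply]
  split_ifs <;> simp

lemma map_supported (U : ℕ → G.V) (hU : G.interior = Set.range U) :
    (supported R R G.interior).map (G.lap w d) =
    span R (Set.range fun i => G.lap w d (single (U i) 1)) := by
  rw [supported_eq_span_single, Submodule.map_span, hU]
  congr 1
  ext z
  constructor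
  · rintro ⟨_, ⟨_, ⟨i, rfl⟩, rfl⟩, rfl⟩
    exact ⟨i, rfl⟩
  · rintro ⟨i, rfl⟩
    exact ⟨_, ⟨_, ⟨i, rfl⟩, rfl⟩, rfl⟩

/-- Let `U 0, U 1, ...` be the interior vertices, and suppose that for every `i` there is a vertex
`F i`, joined to `U i` by exactly one edge, which is neither equal nor joined to a `U j` with
`j > i`, and not equal to `U i`. Then all fundamental modules are flat. -/
theorem flat_of_order (U F : ℕ → G.V) (ed : ℕ → G.E) (hU : G.interior = Set.range U)
    (hs : ∀ i, G.src (ed i) = U i) (ht : ∀ i, G.tgt (ed i) = F i)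
    (hne : ∀ i j, i ≤ j → U j ≠ F i)
    (hun : ∀ i j, i ≤ j → ∀ e, G.src e = U j → G.tgt e = F i → e = ed i ∧ j = i)
    (hw : G.IsNetwork w) : Module.Flat R (G.Fund w d) := by
  classical
  unfold BGraph.Fund
  rw [map_supported G w d U hU]
  apply tri_flat (fun i => G.lap w d (single (U i) 1)) F
  · intro i
    show IsUnit (G.lap w d (single (U i) 1) (F i))
    rw [lap_apply_ne G w d (U i) (F i) (hne i i le_rfl), Finset.sum_eq_single (ed i)]
    · rw [if_pos (ht i)]
      exact (hw.2 _).neg
    · intro e he hne'
      rw [if_neg]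
      intro h
      exact hne' (hun i i le_rfl e ((mem_out G _ _).1 he) h).1
    · intro h
      exact absurd ((mem_out G _ _).2 (hs i)) h
  · intro i j hij
    show G.lap w d (single (U j) 1) (F i) = 0
    rw [lap_apply_ne G w d (U j) (F i) (hne i j hij.le), Finset.sum_eq_zero, neg_zero]
    intro e he
    rw [if_neg]
    intro h
    exact absurd (hun i j hij.le e ((mem_out G _ _).1 he) h).2 (by omega)

end Pool.Agent.Q180.FN
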