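import Pool.Agent.Q180.FN.Gen

/-!
# The graph (MP_2ddb17_co)

Vertices `p k`, `q k`, `c k`, `k ≥ 0`; edges `p k - p (k + 1)`, `q k - p (k + 2)`, `c k - p (k + 1)`,
`c k - q k`. The boundary vertices are `p 0` and the `c k`.
-/

set_option autoImplicit false

namespace Pool.Agent.Q180.FN

open Finsupp Submodule

universe u

abbrev p (k : ℕ) : Fin 3 × ℕ := (0, k)
abbrev q (k : ℕ) : Fin 3 × ℕ := (1, k)
abbrev c (k : ℕ) : Fin 3 × ℕ := (2, k)

/-- the two ends of the edge `(i, k)` -/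
def ends : Fin 4 × ℕ → (Fin 3 × ℕ) × (Fin 3 × ℕ)
  | (0, k) => (p k, p (k + 1))
  | (1, k) => (q k, p (k + 2))
  | (2, k) => (c k, p (k + 1))
  | (3, k) => (c k, q k)

def src (e : (Fin 4 × ℕ) × Bool) : Fin 3 × ℕ := if e.2 then (ends e.1).1 else (ends e.1).2

def tgt (e : (Fin 4 × ℕ) × Bool) : Fin 3 × ℕ := if e.2 then (ends e.1).2 else (ends e.1).1

lemma le_src (e : (Fin 4 × ℕ) × Bool) : e.1.2 ≤ (src e).2 := by
  obtain ⟨⟨i, k⟩, b⟩ := e
  fin_cases i <;> cases b <;> simp [src, ends]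

/-- the graph -/
def gr : BGraph where
  V := Fin 3 × ℕ
  E := (Fin 4 × ℕ) × Bool
  src := src
  tgt := tgt
  rev e := (e.1, !e.2)
  rev_rev e := by simp
  rev_ne e := by
    obtain ⟨e, b⟩ := e
    cases b <;> simp
  src_rev e := by
    obtain ⟨e, b⟩ := e
    cases b <;> simp [src, tgt]
  interior := {x | (∃ k, x = p (k + 1)) ∨ ∃ k, x = q k}
  countable := inferInstanceAs (Countable (Fin 3 × ℕ))
  locFin x := by
    refine Set.Finite.subset (((Set.finite_univ (α := Fin 4)).prod (Set.finite_Iic x.2)).prod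
      (Set.finite_univ (α := Bool))) ?_
    rintro e rfl
    exact ⟨⟨trivial, le_src e⟩, trivial⟩

/-- the interior vertices in order -/
def U (i : ℕ) : Fin 3 × ℕ := if i % 2 = 0 then p (i / 2 + 1) else q (i / 2)

/-- the vertices which are joined to `U i`, but to none of the `U j`, `j > i` -/
def F (i : ℕ) : Fin 3 × ℕ := if i % 2 = 0 then p (i / 2) else c (i / 2)

/-- the edge from `U i` to `F i` -/
def ed (i : ℕ) : (Fin 4 × ℕ) × Bool := if i % 2 = 0 then ((0, i / 2), false) else ((3, i / 2), false)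

lemma src_ed (i : ℕ) : src (ed i) = U i := by
  unfold ed U
  split_ifs <;> simp [src, ends]

lemma tgt_ed (i : ℕ) : tgt (ed i) = F i := by
  unfold ed F
  split_ifs <;> simp [tgt, ends]

lemma interior_eq : gr.interior = Set.range U := by
  ext x
  show ((∃ k, x = p (k + 1)) ∨ ∃ k, x = q k) ↔ _
  constructor
  · rintro (⟨k, rfl⟩ | ⟨k, rfl⟩)
    · exact ⟨2 * k, by simp [U]⟩
    · refine ⟨2 * k + 1, ?_⟩
      have h1 : (2 * k + 1) % 2 ≠ 0 := by omega
      have h2 : (2 * k + 1) / 2 = k := by omega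
      simp [U, h2]
  · rintro ⟨i, rfl⟩
    unfold U
    split_ifs
    · exact Or.inl ⟨_, rfl⟩
    · exact Or.inr ⟨_, rfl⟩

lemma U_ne_F (i j : ℕ) (h : i ≤ j) : U j ≠ F i := by
  unfold U F
  split_ifs <;> intro h' <;> simp at h' <;> omega

/-- an edge from `U j` to `F i`, `i ≤ j`, is the edge `ed i`, and `j = i` -/
lemma edge_unique (i j : ℕ) (h : i ≤ j) (e : (Fin 4 × ℕ) × Bool) (h1 : src e = U j)
    (h2 : tgt e = F i) : e = ed i ∧ j = i := by
  obtain ⟨⟨a, k⟩, b⟩ := e
  unfold U at h1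
  unfold F at h2
  unfold ed
  fin_cases a <;> cases b <;> simp only [src, tgt, ends] at h1 h2 <;> split_ifs at h1 h2 ⊢ <;>
    simp at h1 h2 ⊢ <;> omega

/-- all fundamental modules of the graph are flat -/
theorem flat (R : Type u) [CommRing R] (w : gr.E → R) (d : gr.V → R) (hw : gr.IsNetwork w) :
    Module.Flat R (gr.Fund w d) :=
  flat_of_order gr w d U F ed interior_eq src_ed tgt_ed U_ne_F edge_unique hw

/-! ### A network over the integers -/

/-- the weights are equal to `1` -/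
def w1 : gr.E → ℤ := fun _ => 1

/-- the function `d` -/
def dd : Fin 3 × ℕ → ℤ
  | (0, 0) => 0
  | (0, 1) => -1
  | (0, _ + 2) => -2
  | (1, _) => -4
  | (2, _) => 0

lemma network_w1 : gr.IsNetwork w1 := ⟨fun _ => rfl, fun _ => isUnit_one⟩

/-- the basis vectors -/
noncomputable def s (x : Fin 3 × ℕ) : gr.V →₀ ℤ := single (x : gr.V) (1 : ℤ)

/-- the Laplacian -/
noncomputable def L : (gr.V →₀ ℤ) →ₗ[ℤ] (gr.V →₀ ℤ) := gr.lap w1 dd

lemma L_s (x : Fin 3 × ℕ) (S : Finset ((Fin 4 × ℕ) × Bool)) (hS : ∀ e, e ∈ S ↔ src e = x) :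
    L (s x) = dd x • s x + ∑ e ∈ S, (s x - s (tgt e)) := by
  have := lap_single' gr w1 dd x S hS
  refine this.trans ?_
  congr 1
  apply Finset.sum_congr rfl
  intro e _
  exact one_smul _ _

lemma L_q (k : ℕ) : L (s (q k)) = -(2 : ℤ) • s (q k) - s (p (k + 2)) - s (c k) := by
  rw [L_s (q k) {((1, k), true), ((3, k), false)}]
  · rw [Finset.sum_pair (by simp)]
    simp only [tgt, ends, dd]
    simp
    module
  · rintro ⟨⟨a, j⟩, b⟩
    fin_cases a <;> cases b <;> simp [src, ends]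

lemma L_p0 : L (s (p 1)) = (2 : ℤ) • s (p 1) - s (p 0) - s (p 2) - s (c 0) := by
  rw [L_s (p 1) {((0, 0), false), ((0, 1), true), ((2, 0), false)}]
  · rw [Finset.sum_insert (by simp), Finset.sum_pair (by simp)]
    simp only [tgt, ends, dd]
    simp
    module
  · rintro ⟨⟨a, j⟩, b⟩
    fin_cases a <;> cases b <;> simp [src, ends]

lemma L_p (k : ℕ) : L (s (p (k + 2))) =
    (2 : ℤ) • s (p (k + 2)) - s (p (k + 1)) - s (p (k + 3)) - s (c (k + 1)) - s (q k) := by
  rw [L_s (p (k + 2)) {((0, k + 1), false), ((0, k + 2), true), ((1, k), false), ((2, k + 1), false)}]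
  · rw [Finset.sum_insert (by simp), Finset.sum_insert (by simp), Finset.sum_pair (by simp)]
    simp only [tgt, ends, dd]
    simp
    module
  · rintro ⟨⟨a, j⟩, b⟩
    fin_cases a <;> cases b <;> simp [src, ends]

/-- the elements `y 0 = p 0`, `y (k + 1) = p (k + 1) + q k` -/
noncomputable def y : ℕ → gr.V →₀ ℤ
  | 0 => s (p 0)
  | k + 1 => s (p (k + 1)) + s (q k)

lemma L_diff (k : ℕ) : L (s (p (k + 1)) - s (q k)) = (2 : ℤ) • y (k + 1) - y k := by
  rw [map_sub]
  cases k with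
  | zero =>
    rw [L_p0, L_q]
    simp only [y]
    module
  | succ k =>
    rw [L_p, L_q]
    simp only [y]
    module

/-- the harmonic function -/
noncomputable def hh : Fin 3 × ℕ → ℚ
  | (0, k) => (1 / 2) ^ k
  | (1, _) => 0
  | (2, k) => -(1 / 2) ^ (k + 2)

/-- the linear form given by the harmonic function -/
noncomputable def H : (gr.V →₀ ℤ) →ₗ[ℤ] ℚ := linearCombination ℤ (hh : gr.V → ℚ)

lemma H_s (x : Fin 3 × ℕ) : H (s x) = hh x := by
  exact (linearCombination_single ℤ (1 : ℤ) (x : gr.V)).trans (one_smul _ _)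

lemma H_L (x : gr.V) (hx : x ∈ gr.interior) : H (L (s x)) = 0 := by
  rcases hx with ⟨k, rfl⟩ | ⟨k, rfl⟩
  · cases k with
    | zero =>
      rw [L_p0]
      simp only [map_sub, map_smul, H_s, hh]
      norm_num
    | succ k =>
      rw [L_p]
      simp only [map_sub, map_smul, H_s, hh]
      simp only [pow_succ, zsmul_eq_mul]
      push_cast
      ring
  · rw [L_q]
    simp only [map_sub, map_smul, H_s, hh]
    simp only [pow_succ, zsmul_eq_mul]
    push_cast
    ring

/-- the submodule of the relations -/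
noncomputable def N : Submodule ℤ (gr.V →₀ ℤ) := (supported ℤ ℤ gr.interior).map L

lemma H_N (z : gr.V →₀ ℤ) (hz : z ∈ N) : H z = 0 := by
  have hN : N ≤ LinearMap.ker H := by
    unfold N
    rw [supported_eq_span_single, Submodule.map_span, Submodule.span_le]
    rintro _ ⟨_, ⟨x, hx, rfl⟩, rfl⟩
    exact H_L x hx
  exact hN hz

lemma rel (k : ℕ) : (2 : ℤ) • y (k + 1) - y k ∈ N := by
  rw [← L_diff]
  refine Submodule.mem_map_of_mem (Submodule.sub_mem _ ?_ ?_)
  · exact single_mem_supported ℤ 1 (Or.inl ⟨k, rfl⟩)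
  · exact single_mem_supported ℤ 1 (Or.inr ⟨k, rfl⟩)

/-- the fundamental module is not free -/
theorem not_free : ¬ Module.Free ℤ (gr.Fund w1 dd) := by
  intro hfree
  let b := Module.Free.chooseBasis ℤ (gr.Fund w1 dd)
  let Y : ℕ → gr.Fund w1 dd := fun k => Submodule.Quotient.mk (y k)
  have hrel : ∀ k, Y k = (2 : ℤ) • Y (k + 1) := by
    intro k
    symm
    rw [← sub_eq_zero]
    exact (Submodule.Quotient.mk_eq_zero _).2 (rel k)
  have hpow : ∀ k, Y 0 = (2 : ℤ) ^ k • Y k := by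
    intro k
    induction k with
    | zero => simp
    | succ k ih => rw [ih, hrel k, smul_smul, pow_succ]
  have hzero : Y 0 = 0 := by
    apply b.ext_elem
    intro i
    rw [map_zero, Finsupp.zero_apply]
    by_contra hne
    have hdvd : ∀ k, (2 : ℤ) ^ k ∣ b.repr (Y 0) i := by
      intro k
      rw [hpow k, map_smul, Finsupp.smul_apply, smul_eq_mul]
      exact dvd_mul_right _ _
    obtain ⟨m, hm⟩ : ∃ m : ℕ, |b.repr (Y 0) i| = m := ⟨_, Int.abs_eq_natAbs _⟩
    have h1 := Int.le_of_dvd (abs_pos.2 hne) ((dvd_abs _ _).2 (hdvd m))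
    rw [hm] at h1
    have h3 : 2 ^ m ≤ m := by exact_mod_cast h1
    exact absurd h3 (not_le.2 Nat.lt_two_pow_self)
  have hmem : y 0 ∈ N := (Submodule.Quotient.mk_eq_zero _).1 hzero
  have := H_N _ hmem
  rw [show y 0 = s (p 0) from rfl, H_s] at this
  simp [hh] at this

end Pool.Agent.Q180.FN
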